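import Mathlib

/-!
# A comparison principle for scalar ODEs

Helper file for MP_1f2107_an.
-/

namespace Q67.PL

open Filter Topology

/-- sub- and supersolutions of a scalar ODE with Lipschitz right-hand side. -/
lemma comp_le {K : ℝ} {f : ℝ → ℝ → ℝ} (hf : ∀ t x y, y ≤ x → f t x - f t y ≤ K * (x - y))
    {u v u' v' : ℝ → ℝ} (hu : ∀ t, HasDerivAt u (u' t) t) (hv : ∀ t, HasDerivAt v (v' t) t)
    (hu' : ∀ t, u' t ≤ f t (u t)) (hv' : ∀ t, f t (v t) ≤ v' t) (h0 : u 0 ≤ v 0) :
    ∀ t, 0 ≤ t → u t ≤ v t := by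
  intro t1 ht1
  by_contra hcon
  push Not at hcon
  have hcu : Continuous u := continuous_iff_continuousAt.2 fun t => (hu t).continuousAt
  have hcv : Continuous v := continuous_iff_continuousAt.2 fun t => (hv t).continuousAt
  set Z : Set ℝ := {t ∈ Set.Icc 0 t1 | u t ≤ v t} with hZ
  have hZc : IsCompact Z := by
    have : Z = Set.Icc 0 t1 ∩ {t | u t ≤ v t} := rfl
    rw [this]
    exact isCompact_Icc.inter_right (isClosed_le hcu hcv)
  have hZn : Z.Nonempty := ⟨0, ⟨le_rfl, ht1⟩, h0⟩
  have hs := hZc.sSup_mem hZn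
  set s := sSup Z with hsdef
  obtain ⟨⟨hs0, hs1⟩, hsu⟩ := hs
  have hst : s < t1 := by
    rcases hs1.lt_or_eq with h | h
    · exact h
    · exfalso
      rw [h] at hsu
      linarith
  have hpos : ∀ t, s < t → t ≤ t1 → v t < u t := by
    intro t h1 h2
    by_contra h3
    push Not at h3
    have : t ≤ s := le_csSup hZc.bddAbove ⟨⟨by linarith, h2⟩, h3⟩
    linarith
  have hg : ∀ t, HasDerivAt (fun t => Real.exp (-K * t) * (u t - v t))
      (Real.exp (-K * t) * (-K) * (u t - v t) + Real.exp (-K * t) * (u' t - v' t)) t := by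
    intro t
    have h1 : HasDerivAt (fun t : ℝ => -K * t) (-K) t := by
      simpa using (hasDerivAt_id t).const_mul (-K)
    exact h1.exp.mul ((hu t).sub (hv t))
  have hanti : AntitoneOn (fun t => Real.exp (-K * t) * (u t - v t)) (Set.Icc s t1) := by
    apply antitoneOn_of_deriv_nonpos (convex_Icc s t1)
    · exact (Continuous.continuousOn (by fun_prop))
    · intro t _
      exact (hg t).differentiableAt.differentiableWithinAt
    · intro t ht
      rw [interior_Icc] at ht
      rw [(hg t).deriv]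
      have h1 := hpos t ht.1 ht.2.le
      have h2 := hf t (u t) (v t) h1.le
      have h3 := hu' t
      have h4 := hv' t
      have h5 : u' t - v' t ≤ K * (u t - v t) := by linarith
      have h6 := Real.exp_pos (-K * t)
      have h7 : Real.exp (-K * t) * (u' t - v' t) ≤ Real.exp (-K * t) * (K * (u t - v t)) :=
        mul_le_mul_of_nonneg_left h5 h6.le
      nlinarith
  have h8 := hanti (Set.left_mem_Icc.2 hst.le) (Set.right_mem_Icc.2 hst.le) hst.le
  simp only at h8
  have h9 : Real.exp (-K * s) * (u s - v s) ≤ 0 :=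
    mul_nonpos_of_nonneg_of_nonpos (Real.exp_pos _).le (by linarith)
  have h10 : 0 < Real.exp (-K * t1) * (u t1 - v t1) :=
    mul_pos (Real.exp_pos _) (by linarith)
  linarith

/-- On the half-line `B ≤ 0` the rotation number of `φ' = -sin φ + B + A cos (ω t)` is never
positive. -/
lemma not_pos {ω B A ρ : ℝ} (hω : 0 < ω) (hB : B ≤ 0) (hρ0 : 0 < ρ) {φ : ℝ → ℝ}
    (hφ : ∀ t : ℝ, HasDerivAt φ (-Real.sin (φ t) + B + A * Real.cos (ω * t)) t)
    (hρ : Tendsto (fun t : ℝ => φ t / (ω * t)) atTop (𝓝 ρ)) : False := by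
  obtain ⟨k, hk⟩ : ∃ k : ℕ, φ 0 + φ (Real.pi / ω) ≤ k * (2 * Real.pi) := by
    obtain ⟨k, hk⟩ := exists_nat_ge ((φ 0 + φ (Real.pi / ω)) / (2 * Real.pi))
    refine ⟨k, ?_⟩
    rwa [div_le_iff₀ (by positivity)] at hk
  set v : ℝ → ℝ := fun t => -φ (t + Real.pi / ω) + k * (2 * Real.pi) with hv
  have hvd : ∀ t, HasDerivAt v
      (-(-Real.sin (φ (t + Real.pi / ω)) + B + A * Real.cos (ω * (t + Real.pi / ω)))) t := by
    intro t
    have h1 := (hφ (t + Real.pi / ω)).comp_add_const t (Real.pi / ω)
    exact (h1.neg).add_const _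
  have hcomp := comp_le (K := 1) (f := fun t x => -Real.sin x + A * Real.cos (ω * t))
    (by
      intro t x y hxy
      have h1 := Real.abs_sin_sub_sin_le x y
      have h2 : |x - y| = x - y := abs_of_nonneg (by linarith)
      rw [h2, abs_le] at h1
      have := h1.1
      change -Real.sin x + A * Real.cos (ω * t) - (-Real.sin y + A * Real.cos (ω * t)) ≤ 1 * (x - y)
      linarith) hφ hvd
    (by
      intro t
      change -Real.sin (φ t) + B + A * Real.cos (ω * t) ≤ -Real.sin (φ t) + A * Real.cos (ω * t)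
      linarith)
    (by
      intro t
      simp only [hv]
      have e1 : Real.sin (-φ (t + Real.pi / ω) + k * (2 * Real.pi)) =
          -Real.sin (φ (t + Real.pi / ω)) := by
        rw [Real.sin_add_nat_mul_two_pi, Real.sin_neg]
      have e2 : ω * (t + Real.pi / ω) = ω * t + Real.pi := by field_simp
      rw [e1, e2, Real.cos_add_pi]
      linarith)
    (by
      simp only [hv, zero_add]
      linarith)
  -- divide by `ω t`
  have hlim : Tendsto (fun t : ℝ => φ (t + Real.pi / ω) / (ω * t)) atTop (𝓝 ρ) := by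
    have h1 : Tendsto (fun t : ℝ => t + Real.pi / ω) atTop atTop :=
      tendsto_atTop_add_const_right _ _ tendsto_id
    have h2 := hρ.comp h1
    have h3 : Tendsto (fun t : ℝ => (t + Real.pi / ω) / t) atTop (𝓝 1) := by
      have h4 : Tendsto (fun t : ℝ => 1 + (Real.pi / ω) / t) atTop (𝓝 (1 + 0)) :=
        tendsto_const_nhds.add (tendsto_const_nhds.div_atTop tendsto_id)
      rw [add_zero] at h4
      refine h4.congr' ?_
      filter_upwards [eventually_gt_atTop 0] with t ht
      field_simp
    have h5 := h2.mul h3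
    rw [mul_one] at h5
    refine h5.congr' ?_
    filter_upwards [eventually_gt_atTop 0] with t ht
    have hpos : 0 < t + Real.pi / ω := by positivity
    simp only [Function.comp]
    field_simp
  have hlim2 : Tendsto (fun t : ℝ => -(φ (t + Real.pi / ω) / (ω * t)) +
      (k * (2 * Real.pi)) / (ω * t)) atTop (𝓝 (-ρ + 0)) := by
    refine hlim.neg.add ?_
    exact tendsto_const_nhds.div_atTop (tendsto_id.const_mul_atTop hω)
  have hle : ρ ≤ -ρ + 0 := by
    refine le_of_tendsto_of_tendsto hρ hlim2 ?_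
    filter_upwards [eventually_gt_atTop 0] with t ht
    have h1 := hcomp t ht.le
    simp only [hv] at h1
    have h2 : 0 < ω * t := by positivity
    rw [← neg_div, ← add_div]
    exact div_le_div_of_nonneg_right h1 h2.le
  linarith

end Q67.PL
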